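import Mathlib
import Pool.Agent.N757.AS.Stm

/-!
# Project AS, part TWO: `A ^ p - B ^ q` has two different roots (helper134)
-/

set_option autoImplicit false

namespace Pool.Agent.N134.AS

open Polynomial UniqueFactorizationMonoid Pool.Agent.N757.AS

/-- a polynomial with at most one root divides a power of a linear polynomial -/
theorem one_root {F : Type} [Field F] [IsAlgClosed F] (G : F[X]) (hG : G ≠ 0) (α : F)
    (h : ∀ x, G.eval x = 0 → x = α) : ∃ n : ℕ, G ∣ (X - C α) ^ n := by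
  have h1 : G.roots = Multiset.replicate G.roots.card α := by
    rw [Multiset.eq_replicate]
    exact ⟨rfl, fun x hx => h x ((mem_roots hG).1 hx)⟩
  have h2 := (IsAlgClosed.splits G).eq_prod_roots
  refine ⟨G.roots.card, ?_⟩
  have h3 : G = C G.leadingCoeff * (X - C α) ^ G.roots.card := by
    conv_lhs => rw [h2, h1]
    rw [Multiset.map_replicate, Multiset.prod_replicate]
  have h4 : IsUnit (C G.leadingCoeff) := isUnit_C.2 (isUnit_iff_ne_zero.2 (leadingCoeff_ne_zero.2 hG))
  conv_lhs => rw [h3]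
  exact h4.mul_left_dvd.2 dvd_rfl

theorem t : Pool.Agent.N757.AS.StmTwo := by
  intro F _ _ _ p q A B hp hq hA hAB hN hle
  classical
  by_contra hcon
  set G := A ^ p - B ^ q with hGdef
  have hpA : 1 ≤ p * A.natDegree := Nat.mul_pos hp hA
  have hA0 : A ≠ 0 := by
    rintro rfl
    simp at hA
  have hB0 : B ≠ 0 := by
    rintro rfl
    rw [natDegree_zero, mul_zero] at hN
    omega
  have hcop : IsCoprime (A ^ p) (B ^ q) := hAB.pow
  have hG0 : G ≠ 0 := by
    intro h0
    have h1 : A ^ p = B ^ q := sub_eq_zero.1 h0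
    rw [← h1, isCoprime_self] at hcop
    have h2 := natDegree_eq_zero_of_isUnit hcop
    rw [natDegree_pow] at h2
    omega
  obtain ⟨α, hα⟩ : ∃ α : F, ∀ x, G.eval x = 0 → x = α := by
    by_cases h : ∃ α, G.eval α = 0
    · obtain ⟨α, hα⟩ := h
      refine ⟨α, fun x hx => ?_⟩
      by_contra hne
      exact hcon ⟨x, α, hne, hx, hα⟩
    · exact ⟨0, fun x hx => absurd ⟨x, hx⟩ h⟩
  obtain ⟨n, hn⟩ := one_root G hG0 α hα
  have hL0 : A * B * (X - C α) ≠ 0 := mul_ne_zero (mul_ne_zero hA0 hB0) (X_sub_C_ne_zero α)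
  have hd : A ^ p * (-B ^ q) * (-G) ∣ (A * B * (X - C α)) ^ (p + q + n) := by
    rw [mul_pow, mul_pow]
    refine mul_dvd_mul (mul_dvd_mul (pow_dvd_pow _ (by omega)) ?_) ?_
    · rw [neg_dvd]
      exact pow_dvd_pow _ (by omega)
    · rw [neg_dvd]
      exact hn.trans (pow_dvd_pow _ (by omega))
  have hne : A ^ p * (-B ^ q) * (-G) ≠ 0 :=
    mul_ne_zero (mul_ne_zero (pow_ne_zero _ hA0) (neg_ne_zero.2 (pow_ne_zero _ hB0)))
      (neg_ne_zero.2 hG0)
  have hr : radical (A ^ p * (-B ^ q) * (-G)) ∣ A * B * (X - C α) :=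
    (exists_dvd_pow_iff_radical_dvd hne).1 ⟨_, hd⟩
  have hdeg := natDegree_le_of_dvd hr hL0
  rw [natDegree_mul (mul_ne_zero hA0 hB0) (X_sub_C_ne_zero α), natDegree_mul hA0 hB0,
    natDegree_X_sub_C] at hdeg
  have habc := Polynomial.abc (pow_ne_zero p hA0) (neg_ne_zero.2 (pow_ne_zero q hB0))
    (neg_ne_zero.2 hG0) hcop.neg_right (by rw [hGdef]; ring)
  rcases habc with h | h
  · have h1 := h.1
    rw [natDegree_pow] at h1
    omega
  · have h1 := Polynomial.derivative_eq_zero.1 h.1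
    rw [natDegree_pow] at h1
    omega

end Pool.Agent.N134.AS
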